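import Pool.Agent.Y332.HC.Pal

/-!
# Kronecker products and the number of Hadamard equivalence classes

`h(n) ≤ h(m n)` for every `n` and every `m` in the multiplicative semigroup generated by `2`, the
numbers `q + 1` (`q ≡ 3 mod 4` a prime power), `2 (q + 1)` (`q ≡ 1 mod 4` a prime power) and the
orders of the Hadamard matrices which have an automorphism of prime order with exactly one fixed
row and exactly one fixed column (for instance all those with a core developed over a group:
difference sets).  Moreover for each such `m` there is a Hadamard matrix `M` of order `m` which can be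
cancelled: `M ⊗ H` and `M ⊗ K` are equivalent if and only if `H` and `K` are.  `m = 2` is the question.
-/

set_option autoImplicit false

namespace Pool.Agent.Results.MP_ced6ff_co.KroneckerClasses

open Finset Pool.Agent.Results.MP_ced6ff_co.HadamardClasses Pool.Agent.Y332.HC

/-- `M` has an automorphism (a permutation `σ` of the rows and a permutation `τ` of the columns which
preserve `M`) of prime order `p` (`σ ^ p = τ ^ p = 1`) with exactly one fixed row and exactly one
fixed column. -/
def OneFixed {m : ℕ} (M : Matrix (Fin m) (Fin m) ℤ) : Prop :=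
  ∃ (p : ℕ) (σ τ : Equiv.Perm (Fin m)) (i0 j0 : Fin m), p.Prime ∧ σ ^ p = 1 ∧ τ ^ p = 1 ∧
    (∀ i j, M (σ i) (τ j) = M i j) ∧ (∀ i, σ i = i ↔ i = i0) ∧ (∀ j, τ j = j ↔ j = j0)

/-- The generators of the semigroup. -/
def gens : Set ℕ :=
  {m | m = 2 ∨ (∃ q, IsPrimePow q ∧ q % 4 = 3 ∧ m = q + 1) ∨
    (∃ q, IsPrimePow q ∧ q % 4 = 1 ∧ m = 2 * (q + 1)) ∨
    ∃ M : Matrix (Fin m) (Fin m) ℤ, IsHadamard M ∧ OneFixed M}

theorem goodOrder_oneFixed {m : ℕ} (M : Matrix (Fin m) (Fin m) ℤ) (hM : IsHadamard M)
    (h : OneFixed M) : GoodOrder m := by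
  obtain ⟨p, σ, τ, i0, j0, hp, hσ, hτ, hinv, hi, hj⟩ := h
  have : Fact p.Prime := ⟨hp⟩
  refine ⟨M, hM, fun n S => ?_⟩
  have e1 : (σ : Fin m → Fin m)^[p] = id := by
    rw [← Equiv.Perm.coe_pow, hσ]; rfl
  have e2 : (τ : Fin m → Fin m)^[p] = id := by
    rw [← Equiv.Perm.coe_pow, hτ]; rfl
  have := hom_fixed (p := p) (α0 := Unit) (β0 := Unit) (fun i j => M i j) hM.1 σ τ e1 e2
    hinv (fun _ => i0) (fun _ => j0) (fun _ _ _ => rfl) (fun _ _ _ => rfl)
    (fun a => by rw [hi]; exact ⟨fun h => ⟨(), h.symm⟩, fun ⟨_, h⟩ => h.symm⟩)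
    (fun a => by rw [hj]; exact ⟨fun h => ⟨(), h.symm⟩, fun ⟨_, h⟩ => h.symm⟩) n S
  have h2 : hom S (fun (_ _ : Unit) => M i0 j0) = (M i0 j0) ^ S.card := by
    unfold hom
    simp
  rw [h2] at this
  intro h0
  rw [h0] at this
  have h3 := (Int.modEq_iff_dvd.mp this)
  rw [sub_zero] at h3
  have hu : IsUnit ((M i0 j0) ^ S.card) := by
    refine IsUnit.pow _ ?_
    rcases hM.1 i0 j0 with h | h <;> rw [h]
    · exact isUnit_one
    · exact isUnit_one.neg
  have h4 : IsUnit (p : ℤ) := isUnit_of_dvd_unit h3 hu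
  have h5 := Int.isUnit_iff_natAbs_eq.mp h4
  simp only [Int.natAbs_natCast] at h5
  exact hp.one_lt.ne' h5

theorem goodOrder_gens {m : ℕ} (h : m ∈ gens) : GoodOrder m := by
  rcases h with rfl | ⟨q, hq, hq4, rfl⟩ | ⟨q, hq, hq4, rfl⟩ | ⟨M, hM, h⟩
  · exact goodOrder_two
  · obtain ⟨p, k, hp, hk, rfl⟩ := hq
    have hp' : p.Prime := hp.nat_prime
    have : Fact p.Prime := ⟨hp'⟩
    let F := GaloisField p k
    have : Fintype F := Fintype.ofFinite F
    have : DecidableEq F := Classical.decEq F
    have hcard : Fintype.card F = p ^ k := by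
      rw [← Nat.card_eq_fintype_card]; exact GaloisField.card p k hk.ne'
    have hp2 : p ≠ 2 := by
      rintro rfl
      have : 2 ∣ 2 ^ k := dvd_pow_self 2 hk.ne'
      omega
    have hF : ringChar F ≠ 2 := by rw [ringChar.eq F p]; exact hp2
    have hχ : quadraticChar F (-1) = -1 := by
      rw [quadraticChar_neg_one hF, hcard]
      exact ZMod.χ₄_nat_three_mod_four hq4
    rw [← hcard]
    exact goodOrder_P1 (p := p) hF hχ
  · obtain ⟨p, k, hp, hk, rfl⟩ := hq
    have hp' : p.Prime := hp.nat_prime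
    have : Fact p.Prime := ⟨hp'⟩
    let F := GaloisField p k
    have : Fintype F := Fintype.ofFinite F
    have : DecidableEq F := Classical.decEq F
    have hcard : Fintype.card F = p ^ k := by
      rw [← Nat.card_eq_fintype_card]; exact GaloisField.card p k hk.ne'
    have hp2 : p ≠ 2 := by
      rintro rfl
      have : 2 ∣ 2 ^ k := dvd_pow_self 2 hk.ne'
      omega
    have hF : ringChar F ≠ 2 := by rw [ringChar.eq F p]; exact hp2
    have hχ : quadraticChar F (-1) = 1 := by
      rw [quadraticChar_neg_one hF, hcard]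
      exact ZMod.χ₄_nat_one_mod_four hq4
    rw [← hcard]
    exact goodOrder_P2 (p := p) hF hp2 hχ
  · exact goodOrder_oneFixed M hM h

theorem goodOrder_closure {m : ℕ} (h : m ∈ Submonoid.closure gens) : GoodOrder m := by
  induction h using Submonoid.closure_induction with
  | mem x hx => exact goodOrder_gens hx
  | one => exact goodOrder_one
  | mul x y _ _ hx hy => exact goodOrder_mul hx hy

/-- **Main theorem.**  For every `m` in the multiplicative semigroup generated by `gens` there is a
Hadamard matrix `M` of order `m` such that for every `n` two Hadamard matrices `H`, `K` of order `n` are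
equivalent if and only if `M ⊗ H` and `M ⊗ K` are; in particular `h(n) ≤ h(m n)`. -/
theorem result (m : ℕ) (hm : m ∈ Submonoid.closure gens) :
    ∃ M : Matrix (Fin m) (Fin m) ℤ, IsHadamard M ∧ ∀ n : ℕ,
      (∀ H K : Matrix (Fin n) (Fin n) ℤ, IsHadamard H → IsHadamard K →
        (IsHadamard (kr M H) ∧ (Equivalent (kr M H) (kr M K) ↔ Equivalent H K))) ∧
      numClasses n ≤ numClasses (m * n) := by
  obtain ⟨M, hM, hg⟩ := goodOrder_closure hm
  refine ⟨M, hM, fun n => ⟨fun H K hH hK => ⟨kr_hadamard hM hH, kr_cancel hg hH hK,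
    kr_equivalent M⟩, ?_⟩⟩
  exact Nat.card_le_card_of_injective (krClass M hM n) (krClass_injective M hM hg n)

end Pool.Agent.Results.MP_ced6ff_co.KroneckerClasses
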