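import Pool.Agent.Y847.HA.Growth

/-!
# Hadamard equivalence classes: `h(n)² n! ≤ h(2n) (4n)^(4 ⌈log₂ n⌉)`

`h(n) = numClasses n` is the number of equivalence classes of Hadamard matrices of order `n`
(definitions of the starting file `HadamardClasses.lean`).

Idea.  For representatives `H`, `K` of two classes and a permutation `σ` of the columns of `K`
consider the Hadamard matrix `[[H, H], [Kσ, -Kσ]]` of order `2n`.  Some `s = 2 ⌈log₂ n⌉` rows of
`H` separate the columns of `H` up to sign (a greedy choice: every new row separates at least half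
of the remaining pairs of columns), similarly for `K`.  An equivalence of `[[H, H], [Kσ, -Kσ]]`
with a fixed matrix `M` of order `2n` is described by the positions and signs of the `2 s`
separating rows only: they determine the pairs of columns `j`, `j + n`, then the two blocks of rows,
then the classes of `H` and `K`, and finally the permutation `σ`.  So at most `(4n)^(2s)` of the
`h(n)² n!` triples `(H, K, σ)` give the same class.
-/

set_option autoImplicit false

namespace Pool.Agent.Results.MP_ced6ff_co.SquaredGrowth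

open Pool.Agent.Results.MP_ced6ff_co.HadamardClasses Y847.HA
open scoped Nat

/-- **The number `h` of Hadamard equivalence classes in the orders `n` and `2n`.**

(1) `h(n) ≤ h(2n)` for every `n ≥ 1` (the question; this part is the starting theorem).

(2) `h(n)² n! ≤ h(2n) (4n)^(4 ⌈log₂ n⌉)` for every `n ≥ 2`.

(3) `h(n)² < h(2n)` for every `n ≥ 44` with `h(n) > 0`; so the inequality of the question is strict
and `h` is more than squared by doubling the order.

(4) Growth, explicit: if `h(n) > 0`, then for every `k`, with `λ = ⌈log₂ n⌉`,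
`2 ^ (2^k n (k-1)(k-2)) ≤ h(2^k n)^8 * 2 ^ (2^k (32 λ² + 160 λ + 256))`.

(5) Growth, asymptotically: if `h(n) > 0`, then `h(2^k n)^9 ≥ 2 ^ (n k² 2^k)` for all large `k`.
With `N = 2^k n` this says `log₂ h(N) ≥ N (log₂ (N / n))² / 9`; in particular `h(N)` is larger
than `N ^ (C N)` for every constant `C` along these orders. -/
theorem result :
    (∀ n : ℕ, 1 ≤ n → numClasses n ≤ numClasses (2 * n)) ∧
    (∀ n : ℕ, 2 ≤ n →
      numClasses n ^ 2 * n ! ≤ numClasses (2 * n) * (4 * n) ^ (4 * Nat.clog 2 n)) ∧
    (∀ n : ℕ, 44 ≤ n → 0 < numClasses n → numClasses n ^ 2 < numClasses (2 * n)) ∧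
    (∀ n : ℕ, 1 ≤ n → 0 < numClasses n → ∀ k : ℕ,
      2 ^ (2 ^ k * n * ((k - 1) * (k - 2))) ≤ numClasses (2 ^ k * n) ^ 8 *
        2 ^ (2 ^ k * (32 * Nat.clog 2 n ^ 2 + 160 * Nat.clog 2 n + 256))) ∧
    (∀ n : ℕ, 1 ≤ n → 0 < numClasses n → ∃ k₀ : ℕ, ∀ k ≥ k₀,
      2 ^ (n * k ^ 2 * 2 ^ k) ≤ numClasses (2 ^ k * n) ^ 9) := by
  refine ⟨HadamardClasses.result, fun n hn => squared hn, fun n hn h0 => strict hn h0,
    fun n hn h0 k => ?_, fun n hn h0 => growth9 hn h0⟩
  have h := growth8 hn h0 k
  have e : 8 * gg (Nat.clog 2 n) = 32 * Nat.clog 2 n ^ 2 + 160 * Nat.clog 2 n + 256 := by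
    unfold gg
    ring
  rwa [e] at h

end Pool.Agent.Results.MP_ced6ff_co.SquaredGrowth
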